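import Mathlib
import Pool.Agent.R98.VXMain

set_option autoImplicit false

namespace Pool.Agent.Results.MP_899f7c_co.NoPolynomialRelation

/-- The lattice `B ℤ^d` in `ℝ^n` (for an injective linear map `B`). -/
def lattice {d n : ℕ} (B : (Fin d → ℝ) →ₗ[ℝ] EuclideanSpace ℝ (Fin n)) :
    Set (EuclideanSpace ℝ (Fin n)) :=
  {x | ∃ z : Fin d → ℤ, x = B (fun i => (z i : ℝ))}

/-- The Voronoi cell: the points of the linear hull which are at least as close to the origin as to
every lattice point. -/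
def VC {n : ℕ} (Λ : Set (EuclideanSpace ℝ (Fin n))) : Set (EuclideanSpace ℝ (Fin n)) :=
  {x | x ∈ Submodule.span ℝ Λ ∧ ∀ z ∈ Λ, ‖x‖ ≤ ‖x - z‖}

/-- The dual lattice: the points of the linear hull with integral inner products with `Λ`. -/
def dual {n : ℕ} (Λ : Set (EuclideanSpace ℝ (Fin n))) : Set (EuclideanSpace ℝ (Fin n)) :=
  {y | y ∈ Submodule.span ℝ Λ ∧ ∀ z ∈ Λ, ∃ k : ℤ, inner ℝ y z = (k : ℝ)}

/-- The set in `ℝ^k` described by `r` linear inequalities and `m` linear equations. -/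
def Polyhedron {k r m : ℕ} (A : Fin r → (Fin k → ℝ) →ₗ[ℝ] ℝ) (b : Fin r → ℝ)
    (C : Fin m → (Fin k → ℝ) →ₗ[ℝ] ℝ) (c : Fin m → ℝ) : Set (Fin k → ℝ) :=
  {y | (∀ i, A i y ≤ b i) ∧ ∀ j, C j y = c j}

/-- `P` is a linear image of a polytope with at most `r` facets, that is, of a bounded set of some
`ℝ^k` described by `r` linear inequalities and some linear equations. -/
def HasExtension {n : ℕ} (P : Set (EuclideanSpace ℝ (Fin n))) (r : ℕ) : Prop :=
  ∃ (k m : ℕ) (A : Fin r → (Fin k → ℝ) →ₗ[ℝ] ℝ) (b : Fin r → ℝ)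
    (C : Fin m → (Fin k → ℝ) →ₗ[ℝ] ℝ) (c : Fin m → ℝ)
    (T : (Fin k → ℝ) →ₗ[ℝ] EuclideanSpace ℝ (Fin n)),
    Bornology.IsBounded (Polyhedron A b C c) ∧ T '' (Polyhedron A b C c) = P

/-- The extension complexity of `P`: the least `r` such that `P` is a linear image of a polytope
with at most `r` facets. -/
noncomputable def xc {n : ℕ} (P : Set (EuclideanSpace ℝ (Fin n))) : ℕ :=
  sInf {r | HasExtension P r}

/-- There is no polynomial relation: for every `k ≥ 1` there is a lattice whose Voronoi cell has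
extension complexity at most `60 k^4` while the Voronoi cell of the dual lattice has extension
complexity at least `(3/2)^k - 2`; hence for every polynomial `p` there is a lattice `Λ` with
`p (xc (VC Λ)) < xc (VC Λ*)`. -/
theorem result :
    (∀ k : ℕ, 1 ≤ k → ∃ (d n : ℕ) (B : (Fin d → ℝ) →ₗ[ℝ] EuclideanSpace ℝ (Fin n)), 1 ≤ d ∧
      Function.Injective B ∧ xc (VC (lattice B)) ≤ 60 * k ^ 4 ∧
      (3 / 2 : ℝ) ^ k ≤ xc (VC (dual (lattice B))) + 2) ∧
    ∀ p : Polynomial ℝ,
      ∃ (d n : ℕ) (B : (Fin d → ℝ) →ₗ[ℝ] EuclideanSpace ℝ (Fin n)), 1 ≤ d ∧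
        Function.Injective B ∧
        p.eval (xc (VC (lattice B)) : ℝ) < xc (VC (dual (lattice B))) :=
  ⟨fun k hk => Pool.Agent.R98.VX.construction k hk, fun p => Pool.Agent.R98.VX.no_poly p⟩

end Pool.Agent.Results.MP_899f7c_co.NoPolynomialRelation
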